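import Pool.Agent.Helper45.PQ.StA
import Pool.Agent.Helper53.PB.HypNb

/-! Module PNB of project PQ: neighbours of a generator of a parabolic space. -/

set_option autoImplicit false

open Module Classical
open scoped LinearAlgebra.Projectivization

namespace Pool.Agent.Helper80.PQ

open Pool.Agent.Helper45.PQ
open Pool.Agent.Helper53.PB (Form Polar Nb Kind surj_dual exists_sing)

universe u v

private theorem perp_odd {F : Type u} {V : Type v} [Field F] [AddCommGroup V] [Module F V]
    (Q : QuadraticForm F V)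
    (nd : ∀ x, Q x = 0 → (∀ y, QuadraticMap.polar Q x y = 0) → x = 0)
    [FiniteDimensional F V] {U : Submodule F V} (hU : ∀ x ∈ U, Q x = 0)
    (hU2 : ∀ x ∈ U, ∀ y ∈ U, QuadraticMap.polar Q x y = 0) {r : ℕ} (hr : finrank F U = r)
    (hV : finrank F V = 2 * r + 1) :
    ∃ z : V, z ∉ U ∧ (∀ u ∈ U, QuadraticMap.polar Q z u = 0) ∧
      ∀ y : V, (∀ u ∈ U, QuadraticMap.polar Q y u = 0) → ∃ (c : F) (w : U), y = c • z + w := by
  obtain ⟨L, hL⟩ : ∃ L : V →ₗ[F] Dual F U, ∀ y u, L y u = QuadraticMap.polar Q y u :=
    ⟨(Module.Dual.transpose (R := F) U.subtype).comp (QuadraticMap.polarBilin Q), fun y u => rfl⟩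
  have hsurj : LinearMap.range L = ⊤ := by
    rw [LinearMap.range_eq_top]
    intro g
    obtain ⟨y, hy⟩ := surj_dual Q nd hU g
    refine ⟨y, ?_⟩
    ext u
    rw [hL, hy]
  have h1 := LinearMap.finrank_range_add_finrank_ker L
  rw [hsurj, finrank_top, Subspace.dual_finrank_eq, hr, hV] at h1
  have h2 : U ≤ LinearMap.ker L := by
    intro x hx
    rw [LinearMap.mem_ker]
    ext u
    rw [hL]
    exact hU2 x hx u u.2
  have hK : ∀ y, y ∈ LinearMap.ker L ↔ ∀ u ∈ U, QuadraticMap.polar Q y u = 0 := by
    intro y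
    rw [LinearMap.mem_ker]
    constructor
    · intro h u hu
      have h3 := LinearMap.congr_fun h ⟨u, hu⟩
      rw [hL] at h3
      exact h3
    · intro h
      ext u
      rw [hL]
      exact h u u.2
  have hlt : U < LinearMap.ker L := by
    refine lt_of_le_of_ne h2 ?_
    intro h3
    rw [← h3, hr] at h1
    omega
  obtain ⟨z, hzK, hzU⟩ := SetLike.exists_of_lt hlt
  refine ⟨z, hzU, (hK z).1 hzK, ?_⟩
  have hle : U ⊔ Submodule.span F {z} ≤ LinearMap.ker L := by
    apply sup_le h2
    rw [Submodule.span_singleton_le_iff_mem]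
    exact hzK
  have hlt2 : U < U ⊔ Submodule.span F {z} := by
    refine lt_of_le_of_ne le_sup_left ?_
    intro h3
    apply hzU
    rw [h3]
    exact Submodule.mem_sup_right (Submodule.mem_span_singleton_self _)
  have h4 := Submodule.finrank_lt_finrank_of_lt hlt2
  have h5 : U ⊔ Submodule.span F {z} = LinearMap.ker L := by
    apply Submodule.eq_of_le_of_finrank_le hle
    omega
  intro y hy
  have hy2 := (hK y).2 hy
  rw [← h5] at hy2
  obtain ⟨w, hw, t, ht, rfl⟩ := Submodule.mem_sup.1 hy2
  obtain ⟨c, rfl⟩ := Submodule.mem_span_singleton.1 ht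
  exact ⟨c, ⟨w, hw⟩, by rw [add_comm]⟩

theorem hPNB : StPNB.{u, v} := by
  intro F _ _ V _ _ _ φ r hφ hV hgen U hU
  cases φ with
  | symplectic B alt nd => cases hφ
  | hermitian σ i n B hm nd => cases hφ
  | orthogonal Q nd =>
    obtain ⟨P, hP⟩ : ∃ P, P = (Form.orthogonal Q nd).toPolar := ⟨_, rfl⟩
    have hPf : ∀ x y, P.f x y = QuadraticMap.polar Q x y := by
      rw [hP]
      intro x y
      rfl
    have hPs : ∀ x, P.sing x ↔ Q x = 0 := by
      rw [hP]
      intro x
      exact Iff.rfl
    rw [← hP] at hgen hU ⊢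
    have hUr := hgen U hU
    have hU1 : ∀ x ∈ U, Q x = 0 := fun x hx => (hPs x).1 (hU.1.1 x hx)
    have hU2 : ∀ x ∈ U, ∀ y ∈ U, QuadraticMap.polar Q x y = 0 := fun x hx y hy => by
      rw [← hPf]
      exact hU.1.2 x hx y hy
    obtain ⟨z, hzU, hzp, hz⟩ := perp_odd Q nd hU1 hU2 hUr hV
    have hch : ∀ G : ℙ F (Dual F U), ∃ y : V, Q y = 0 ∧ ∀ u : U, QuadraticMap.polar Q y u = G.rep u :=
      fun G => exists_sing Q nd hU1 hU2 G.rep_nonzero
    choose Y0 hY01 hY02 using hch
    -- the value of the form
    have hQ : ∀ (G : ℙ F (Dual F U)) (c : F) (w : U),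
        Q (Y0 G + c • z + w) = c * c * Q z + c * QuadraticMap.polar Q (Y0 G) z + G.rep w := by
      intro G c w
      rw [QuadraticMap.map_add Q, QuadraticMap.map_add Q, QuadraticMap.map_smul, hY01,
        hU1 _ w.2, QuadraticMap.polar_smul_right, QuadraticMap.polar_add_left,
        QuadraticMap.polar_smul_left, hzp _ w.2, hY02]
      simp only [smul_eq_mul]
      ring
    have hsur : ∀ (G : ℙ F (Dual F U)) (c : F), ∃ w : U, G.rep w = c := by
      intro G c
      obtain ⟨u, hu⟩ : ∃ u, G.rep u ≠ 0 := by
        by_contra h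
        push Not at h
        exact G.rep_nonzero (LinearMap.ext h)
      refine ⟨(c / G.rep u) • u, ?_⟩
      rw [map_smul, smul_eq_mul, div_mul_cancel₀ _ hu]
    have hsur2 : ∀ (G : ℙ F (Dual F U)) (c : F), ∃ w : U,
        G.rep w = -(c * c * Q z + c * QuadraticMap.polar Q (Y0 G) z) := fun G c => hsur G _
    choose W hW using hsur2
    obtain ⟨e⟩ : Nonempty (Fin (Nat.card F) ≃ F) := ⟨(Finite.equivFin F).symm⟩
    obtain ⟨Y, hYd⟩ : ∃ Y : Fin (Nat.card F) × ℙ F (Dual F U) → V,
      ∀ p, Y p = Y0 p.2 + e p.1 • z + W p.2 (e p.1) := ⟨_, fun _ => rfl⟩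
    have hY1 : ∀ p, Q (Y p) = 0 := by
      intro p
      rw [hYd, hQ, hW]
      ring
    have hY2 : ∀ p (u : U), QuadraticMap.polar Q (Y p) u = p.2.rep u := by
      intro p u
      rw [hYd, QuadraticMap.polar_add_left, QuadraticMap.polar_add_left,
        QuadraticMap.polar_smul_left, hzp _ u.2, hU2 _ (W p.2 (e p.1)).2 _ u.2, hY02]
      simp
    have hYU : ∀ p, Y p ∉ U := by
      intro p hG
      apply p.2.rep_nonzero
      ext u
      rw [← hY2, hU2 _ hG _ u.2]
      rfl
    obtain ⟨nb, hnb⟩ : ∃ nb : Fin (Nat.card F) × ℙ F (Dual F U) → Submodule F V,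
      ∀ p, nb p = (LinearMap.ker p.2.rep).map U.subtype ⊔ Submodule.span F {Y p} :=
      ⟨_, fun _ => rfl⟩
    have hmem : ∀ p x, x ∈ nb p ↔ ∃ u : U, p.2.rep u = 0 ∧ ∃ c : F, x = (u : V) + c • Y p := by
      intro p x
      rw [hnb, Submodule.mem_sup]
      constructor
      · rintro ⟨y, ⟨u, hu, rfl⟩, z, hz, rfl⟩
        obtain ⟨c, rfl⟩ := Submodule.mem_span_singleton.1 hz
        exact ⟨u, hu, c, rfl⟩
      · rintro ⟨u, hu, c, rfl⟩
        exact ⟨u, ⟨u, hu, rfl⟩, c • Y p,
          Submodule.smul_mem _ _ (Submodule.mem_span_singleton_self _), rfl⟩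
    have hfx : ∀ p x, x ∈ nb p → x ∉ U → ∃ c : F, c ≠ 0 ∧ (∀ u : U, P.f x u = c * p.2.rep u) ∧
        ∃ u : U, x = (u : V) + c • Y p := by
      intro p x hx hxU
      obtain ⟨u, hu, c, rfl⟩ := (hmem p x).1 hx
      refine ⟨c, ?_, ?_, u, rfl⟩
      · rintro rfl
        apply hxU
        rw [zero_smul, add_zero]
        exact u.2
      · intro u'
        rw [hPf, QuadraticMap.polar_add_left, QuadraticMap.polar_smul_left, hU2 _ u.2 _ u'.2, hY2,
          zero_add, smul_eq_mul]
    refine ⟨⟨nb, ?_, ?_, ?_, ?_⟩⟩
    · intro p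
      have hTS : P.TS (nb p) := by
        rw [hnb]
        apply Polar.TS.sup_span
        · apply hU.1.mono
          rintro _ ⟨u, _, rfl⟩
          exact u.2
        · exact (hPs _).2 (hY1 _)
        · rintro _ ⟨u, hu, rfl⟩
          rw [hPf, QuadraticMap.polar_comm]
          change QuadraticMap.polar Q (Y p) u = 0
          rw [hY2]
          exact hu
      apply Polar.gen_of_finrank hgen hTS
      have h1 : (LinearMap.ker p.2.rep).map U.subtype ⊓ Submodule.span F {Y p} = ⊥ := by
        rw [eq_bot_iff]
        rintro x ⟨⟨u, hu, rfl⟩, hx⟩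
        obtain ⟨c, hc⟩ := Submodule.mem_span_singleton.1 hx
        by_cases hc0 : c = 0
        · rw [hc0, zero_smul] at hc
          rw [← hc]
          exact zero_mem _
        · exfalso
          apply hYU p
          rw [← Submodule.smul_mem_iff U hc0, hc]
          exact u.2
      have h2 := Submodule.finrank_sup_add_finrank_inf_eq
        ((LinearMap.ker p.2.rep).map U.subtype) (Submodule.span F {Y p})
      have hY0 : Y p ≠ 0 := fun h => hYU p (by rw [h]; exact zero_mem _)
      rw [h1, finrank_bot, finrank_span_singleton hY0, add_zero,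
        ← (Submodule.equivMapOfInjective U.subtype (Submodule.injective_subtype U)
          (LinearMap.ker p.2.rep)).finrank_eq] at h2
      have h3 := Module.Dual.finrank_ker_add_one_of_ne_zero p.2.rep_nonzero
      rw [hnb, h2, h3, hUr]
    · intro p x
      rw [hmem]
      constructor
      · rintro ⟨u, hu, c, hc⟩
        by_cases hc0 : c = 0
        · rw [hc0, zero_smul, add_zero] at hc
          rw [Subtype.ext hc]
          exact hu
        · exfalso
          apply hYU p
          rw [← Submodule.smul_mem_iff U hc0]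
          have : c • Y p = x - u := by
            rw [hc]
            abel
          rw [this]
          exact U.sub_mem x.2 u.2
      · intro hx
        exact ⟨x, hx, 0, by simp⟩
    · intro x hx hxU
      have hg : (P.f x).domRestrict U ≠ 0 := by
        intro h0
        apply hU.not_le hx hxU
        intro u hu
        exact LinearMap.congr_fun h0 ⟨u, hu⟩
      obtain ⟨a, ha⟩ := Projectivization.exists_smul_eq_mk_rep F _ hg
      obtain ⟨G, hG⟩ : ∃ G, G = Projectivization.mk F _ hg := ⟨_, rfl⟩
      rw [← hG] at ha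
      have hau : ∀ u : U, G.rep u = (a : F) * P.f x u := by
        intro u
        rw [← ha]
        simp [Units.smul_def]
      have hd : ∀ u ∈ U, QuadraticMap.polar Q ((a : F) • x - Y0 G) u = 0 := by
        intro u hu
        rw [sub_eq_add_neg, QuadraticMap.polar_add_left, QuadraticMap.polar_smul_left,
          QuadraticMap.polar_neg_left]
        have h2 := hY02 G ⟨u, hu⟩
        change QuadraticMap.polar Q _ u = _ at h2
        rw [h2, hau, ← hPf]
        simp
      obtain ⟨c, w, hcw⟩ := hz _ hd
      have hax : (a : F) • x = Y0 G + c • z + w := by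
        rw [add_assoc, ← hcw]
        abel
      have hrep : G.rep (w - W G c) = 0 := by
        have h3 : Q ((a : F) • x) = 0 := by
          rw [QuadraticMap.map_smul, (hPs x).1 hx, smul_zero]
        rw [hax, hQ] at h3
        rw [map_sub, hW]
        linear_combination h3
      refine ⟨(e.symm c, G), ?_, ?_⟩
      · change x ∈ nb (e.symm c, G)
        have h6 : (a : F) • x ∈ nb (e.symm c, G) := by
          rw [hmem]
          refine ⟨w - W G c, hrep, 1, ?_⟩
          rw [one_smul, hYd, hax]
          simp only [Equiv.apply_symm_apply]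
          rw [Submodule.coe_sub]
          abel
        exact (Submodule.smul_mem_iff _ a.ne_zero).1 h6
      · rintro ⟨i', G'⟩ hG'
        obtain ⟨c0, hc0, hc, u0, hu0⟩ := hfx _ x hG' hxU
        simp only at hc
        have hGG : G' = G := by
          rw [hG, ← G'.mk_rep, Projectivization.mk_eq_mk_iff']
          refine ⟨c0⁻¹, ?_⟩
          ext u
          rw [LinearMap.smul_apply, smul_eq_mul]
          change c0⁻¹ * P.f x u = _
          rw [hc, ← mul_assoc, inv_mul_cancel₀ hc0, one_mul]
        subst hGG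
        obtain ⟨u1, hu1⟩ := hsur G' 1
        have hac : (a : F) * c0 = 1 := by
          have h7 := hau u1
          rw [hc, hu1, mul_one] at h7
          exact h7.symm
        have h8 : (a : F) • x = (a : F) • (u0 : V) + (Y0 G' + e i' • z + W G' (e i')) := by
          conv_lhs => rw [hu0]
          rw [smul_add, smul_smul, hac, one_smul, hYd]
        have h9 : (c - e i') • z ∈ U := by
          have h10 : (c - e i') • z = (a : F) • (u0 : V) + W G' (e i') - w := by
            rw [sub_smul]
            rw [h8] at hax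
            have h11 : c • z = (a : F) • (u0 : V) + (Y0 G' + e i' • z + W G' (e i')) -
                Y0 G' - w := by
              rw [hax]
              abel
            rw [h11]
            abel
          rw [h10]
          exact U.sub_mem (U.add_mem (U.smul_mem _ u0.2) (W G' (e i')).2) w.2
        have h12 : c = e i' := by
          by_contra hne
          exact hzU ((Submodule.smul_mem_iff U (sub_ne_zero.2 hne)).1 h9)
        rw [h12, Equiv.symm_apply_apply]
    · intro p x hx hxU u
      obtain ⟨c, hc0, hc, _⟩ := hfx p x hx hxU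
      rw [hc, mul_eq_zero]
      exact or_iff_right hc0

end Pool.Agent.Helper80.PQ
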